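import Pool.Agent.Lib.helper21.Clone2

set_option autoImplicit false

/-! Hidden common information: random shifts and a counting bound. -/

namespace Pool.Agent.H.MP_eed1a0_lc

open Finset Pool.Agent.Lib.helper21.KC Classical

variable {Y Ω X Z : Type} [Fintype Y] [Fintype Ω]

theorem two [AddCommGroup Y] (φ : Y → Y → ℕ) {i i' : Y} (h : i ≠ i') (y : Y) :
    Fintype.card Y ^ 2 * ∑ s : Y → Y, φ (y + s i) (y + s i') =
      Fintype.card (Y → Y) * ∑ u, ∑ u', φ u u' := by
  have h1 : ∀ a b : Y, ∑ s : Y → Y, φ (y + s i) (y + s i') =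
      ∑ s : Y → Y, φ (y + s i + a) (y + s i' + b) := fun a b => by
    rw [← Equiv.sum_comp (Equiv.addRight (Pi.single i a + Pi.single i' b))]
    simp [h, h.symm, add_assoc]
  have h2 : Fintype.card Y ^ 2 * ∑ s : Y → Y, φ (y + s i) (y + s i') =
      ∑ a : Y, ∑ b : Y, ∑ s : Y → Y, φ (y + s i + a) (y + s i' + b) := by
    simp only [← h1, sum_const, card_univ, smul_eq_mul]
    ring
  rw [h2, ← card_univ, ← smul_eq_mul, ← sum_const, sum_comm' (t' := univ) (s' := fun _ => univ)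
    (by simp)]
  simp only [sum_comm (γ := Y) (α := Y → Y)]
  refine sum_congr rfl fun s _ => ?_
  rw [sum_comm, ← Equiv.sum_comp (Equiv.addLeft (y + s i)) fun u => ∑ u', φ u u']
  exact sum_congr rfl fun a _ => Equiv.sum_comp (Equiv.addLeft (y + s i')) _

/-- Number of samples with output `z`. -/
noncomputable def cnt (F : Y × Y × Ω → Y → Y → Z) (z : Z) : ℕ :=
  ∑ k, ∑ u, ∑ w, if F k u w = z then 1 else 0

noncomputable def coll (out : Y → Y × Y × Ω → Z) (light : Z → Prop) : ℕ :=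
  ∑ y, ∑ k, ∑ k', if out y k = out y k' ∧ light (out y k) then 1 else 0

theorem shifts [AddCommGroup Y] (F : Y × Y × Ω → Y → Y → Z) (M : ℕ) : ∃ s t : Y → Y,
    M * coll (fun y k => F k (y + s k.1) (y + t k.2.1))
      (fun z => M * cnt F z ≤ Fintype.card Y ^ 4 * Fintype.card Ω) ≤
      Fintype.card Y ^ 4 * Fintype.card Ω ^ 2 * (2 * M + Fintype.card Y) := by
  set N := Fintype.card Y with hN
  set K := Fintype.card Ω with hK
  set P := Fintype.card (Y → Y) with hP
  let l : Z → Prop := fun z => M * cnt F z ≤ N ^ 4 * K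
  let ψ : Y × Y × Ω → Y × Y × Ω → Y → Y → Y → Y → ℕ := fun k k' u u' w w' =>
    if F k u w = F k' u' w' ∧ l (F k u w) then 1 else 0
  have h0 : 0 < N := Fintype.card_pos
  have h1 : ∀ y k k', N ^ 4 * ∑ s : Y → Y, ∑ t : Y → Y,
      ψ k k' (y + s k.1) (y + s k'.1) (y + t k.2.1) (y + t k'.2.1) ≤
      P ^ 2 * ((∑ u, ∑ w, ∑ u', ∑ w', ψ k k' u u' w w') + N ^ 4 * (if k.1 = k'.1 then 1 else 0) +
        N ^ 4 * if k.2.1 = k'.2.1 then 1 else 0) := by
    intro y k k'
    have h2 : ∑ s : Y → Y, ∑ t : Y → Y,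
        ψ k k' (y + s k.1) (y + s k'.1) (y + t k.2.1) (y + t k'.2.1) ≤ P ^ 2 :=
      (sum_le_card_nsmul _ _ P fun s _ => (sum_le_card_nsmul _ _ 1 fun t _ => by
        dsimp only [ψ]; split_ifs <;> omega).trans (by simp [hP])).trans (by simp [hP, sq])
    have h3 := Nat.mul_le_mul_left (N ^ 4) h2
    by_cases c1 : k.1 = k'.1
    · rw [if_pos c1]; nlinarith [Nat.zero_le (P ^ 2 * ((∑ u, ∑ w, ∑ u', ∑ w', ψ k k' u u' w w') +
        N ^ 4 * if k.2.1 = k'.2.1 then 1 else 0))]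
    by_cases c2 : k.2.1 = k'.2.1
    · rw [if_pos c2, if_neg c1]
      nlinarith [Nat.zero_le (P ^ 2 * (∑ u, ∑ w, ∑ u', ∑ w', ψ k k' u u' w w'))]
    rw [if_neg c1, if_neg c2, show N ^ 4 = N ^ 2 * N ^ 2 by ring, mul_assoc, mul_sum]
    simp only [hN, two _ c2, ← mul_sum]
    rw [mul_left_comm, two (fun u u' => ∑ w, ∑ w', ψ k k' u u' w w') c1, mul_zero, add_zero,
      add_zero, ← mul_assoc, ← sq]
    exact le_of_eq (congrArg _ (sum_congr rfl fun u _ => sum_comm))
  have h4 : M * ∑ k, ∑ k', ∑ u, ∑ w, ∑ u', ∑ w', ψ k k' u u' w w' ≤ (N ^ 4 * K) ^ 2 := by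
    have h5 : ∀ k u w, M * ∑ k', ∑ u', ∑ w', ψ k k' u u' w w' ≤ N ^ 4 * K := fun k u w => by
      by_cases c : l (F k u w)
      · refine le_trans (le_of_eq ?_) c
        simp only [ψ, c, and_true, cnt, eq_comm]
      · simp [ψ, c]
    have h6 : ∀ k, ∑ k', ∑ u, ∑ w, ∑ u', ∑ w', ψ k k' u u' w w' =
        ∑ u, ∑ w, ∑ k', ∑ u', ∑ w', ψ k k' u u' w w' := fun k => by
      rw [sum_comm]
      exact sum_congr rfl fun u _ => sum_comm
    simp only [h6, mul_sum (a := M) (s := (univ : Finset (Y × Y × Ω))) (f := fun k =>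
      ∑ u, ∑ w, ∑ k', ∑ u', ∑ w', ψ k k' u u' w w')]
    refine (sum_le_card_nsmul _ _ (N * (N * (N ^ 4 * K))) fun k _ => ?_).trans (le_of_eq ?_)
    · rw [mul_sum]
      refine sum_le_card_nsmul _ _ _ fun u _ => ?_
      rw [mul_sum]
      exact sum_le_card_nsmul _ _ _ fun w _ => h5 k u w
    · simp only [card_univ, Fintype.card_prod, smul_eq_mul, ← hN, ← hK]
      ring
  have h7 : ∑ k : Y × Y × Ω, ∑ k' : Y × Y × Ω, (if k.1 = k'.1 then 1 else 0) = N ^ 3 * K ^ 2 := by
    have : ∀ i : Y, ∑ k' : Y × Y × Ω, (if i = k'.1 then 1 else 0) = N * K := fun i => by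
      rw [Fintype.sum_prod_type]
      change ∑ x, ∑ _y : Y × Ω, (if i = x then 1 else 0) = _
      simp [← hN, ← hK]
    simp only [this, sum_const, card_univ, Fintype.card_prod, smul_eq_mul, ← hN, ← hK]
    ring
  have h8 : ∑ k : Y × Y × Ω, ∑ k' : Y × Y × Ω, (if k.2.1 = k'.2.1 then 1 else 0) =
      N ^ 3 * K ^ 2 := by
    have : ∀ i : Y, ∑ k' : Y × Y × Ω, (if i = k'.2.1 then 1 else 0) = N * K := fun i => by
      rw [Fintype.sum_prod_type]
      change ∑ _x : Y, ∑ y : Y × Ω, (if i = y.1 then 1 else 0) = _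
      rw [Fintype.sum_prod_type]
      change ∑ _x : Y, ∑ y, ∑ _w : Ω, (if i = y then 1 else 0) = _
      simp [← hN, ← hK]
    simp only [this, sum_const, card_univ, Fintype.card_prod, smul_eq_mul, ← hN, ← hK]
    ring
  have h9 : ∑ p : (Y → Y) × (Y → Y), N ^ 4 *
      (M * coll (fun y k => F k (y + p.1 k.1) (y + p.2 k.2.1)) l) ≤
      ∑ _p : (Y → Y) × (Y → Y), N ^ 4 * (N ^ 4 * K ^ 2 * (2 * M + N)) := by
    have e : ∑ p : (Y → Y) × (Y → Y), N ^ 4 *
        (M * coll (fun y k => F k (y + p.1 k.1) (y + p.2 k.2.1)) l) =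
        M * ∑ y, ∑ k, ∑ k', N ^ 4 * ∑ s : Y → Y, ∑ t : Y → Y,
          ψ k k' (y + s k.1) (y + s k'.1) (y + t k.2.1) (y + t k'.2.1) := by
      simp only [← mul_sum, coll]
      rw [mul_left_comm, sum_comm]
      congr 2
      refine sum_congr rfl fun y _ => ?_
      rw [sum_comm]
      refine sum_congr rfl fun k _ => ?_
      rw [sum_comm]
      refine sum_congr rfl fun k' _ => (sum_congr rfl fun p _ => ?_).trans
        (Fintype.sum_prod_type' fun s t : Y → Y =>
          ψ k k' (y + s k.1) (y + s k'.1) (y + t k.2.1) (y + t k'.2.1))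
      dsimp only [ψ]
      split_ifs <;> rfl
    rw [e]
    refine (Nat.mul_le_mul_left M (sum_le_sum fun y _ => sum_le_sum fun k _ =>
      sum_le_sum fun k' _ => h1 y k k')).trans ?_
    simp only [← mul_sum, sum_add_distrib, h7, h8, sum_const, card_univ, smul_eq_mul,
      Fintype.card_prod, ← hN, ← hP]
    generalize (∑ k, ∑ k', ∑ u, ∑ w, ∑ u', ∑ w', ψ k k' u u' w w') = V at h4 ⊢
    calc _ = N * P ^ 2 * (M * V) + 2 * M * N ^ 8 * K ^ 2 * P ^ 2 := by ring
      _ ≤ N * P ^ 2 * (N ^ 4 * K) ^ 2 + 2 * M * N ^ 8 * K ^ 2 * P ^ 2 :=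
        Nat.add_le_add_right (Nat.mul_le_mul_left _ h4) _
      _ = _ := by ring
  obtain ⟨p, -, hp⟩ := exists_le_of_sum_le univ_nonempty h9
  exact ⟨p.1, p.2, Nat.le_of_mul_le_mul_left hp (by positivity)⟩

theorem deg_le {a : Y → Y → X} (ha : ∀ y i y' i', a y i = a y' i' → y = y' ∧ i = i')
    {G : X → Z → Prop} {n : ℕ} (hG : ¬ Many (n + 1) fun p : X × Z => G p.1 p.2) (S : Finset Z) :
    ∑ y, ∑ z ∈ S, Finset.card (univ.filter fun i => G (a y i) z) ≤ n := by
  by_contra c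
  refine hG (Many.rel (p := fun q : Y × Z × Y => q.2.1 ∈ S ∧ G (a q.1 q.2.2) q.2.1)
    ⟨(univ ×ˢ S ×ˢ univ).filter fun q => G (a q.1 q.2.2) q.2.1, ?_, fun q hq => by simpa using hq⟩
    (fun q p => p = (a q.1 q.2.2, q.2.1)) (fun q hq => ⟨_, rfl, hq.2⟩) fun q q' p _ _ h1 h2 => ?_)
  · simpa only [card_filter, sum_product] using Nat.succ_le_of_lt (not_le.1 c)
  · obtain ⟨h3, h4⟩ := Prod.ext_iff.1 (h1.symm.trans h2)
    exact Prod.ext (ha _ _ _ _ h3).1 (Prod.ext h4 (ha _ _ _ _ h3).2)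

theorem count {a b : Y → Y → X} (ha : ∀ y i y' i', a y i = a y' i' → y = y' ∧ i = i')
    (hb : ∀ y i y' i', b y i = b y' i' → y = y' ∧ i = i') {G : X → Z → Prop} {g : ℕ} (g0 : 0 < g)
    (hG : ¬ Many (g * Fintype.card Y ^ 2 + 1) fun p : X × Z => G p.1 p.2)
    (out : Y → Y × Y × Ω → Z) (light : Z → Prop) (T : Finset Y) (hT : Fintype.card Y ≤ 2 * T.card)
    {d : ℕ} (h : ∀ y ∈ T, ∀ i j, d ≤ Finset.card (univ.filter fun w => G (a y i) (out y (i, j, w)) ∧
      G (b y j) (out y (i, j, w)) ∧ light (out y (i, j, w)))) :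
    d ^ 2 * Fintype.card Y ^ 6 ≤ 64 * g ^ 2 * Fintype.card Y * coll out light := by
  set N := Fintype.card Y with hN
  let S : Finset Z := univ.image fun p : Y × Y × Y × Ω => out p.1 p.2
  have hS : ∀ y k, out y k ∈ S := fun y k => mem_image.2 ⟨(y, k), mem_univ _, rfl⟩
  let A : Y → Z → ℕ := fun y z => Finset.card (univ.filter fun i => G (a y i) z)
  let B : Y → Z → ℕ := fun y z => Finset.card (univ.filter fun i => G (b y i) z)
  have h1 : ∑ y, ∑ z ∈ S, A y z ≤ g * N ^ 2 := deg_le ha hG S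
  have h2 : ∑ y, ∑ z ∈ S, B y z ≤ g * N ^ 2 := deg_le hb hG S
  let bad : Finset (Y × Y × Y) := univ.filter fun q =>
    ∃ z ∈ S, 4 * g * A q.1 z ≤ N ∧ G (a q.1 q.2.1) z ∧ G (b q.1 q.2.2) z
  have h3 : 4 * bad.card ≤ N ^ 3 := by
    have h4 : bad.card ≤ ∑ y, ∑ z ∈ S, if 4 * g * A y z ≤ N then A y z * B y z else 0 := by
      rw [card_filter, Fintype.sum_prod_type]
      refine sum_le_sum fun y _ => le_trans (sum_le_sum (g := fun q : Y × Y => ∑ z ∈ S,
        if 4 * g * A y z ≤ N ∧ G (a y q.1) z ∧ G (b y q.2) z then 1 else 0) fun q _ => ?_) ?_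
      · split_ifs with c
        · obtain ⟨z, hz, c⟩ := c
          exact le_trans (by rw [if_pos c]) (single_le_sum (fun _ _ => Nat.zero_le _) hz)
        · exact Nat.zero_le _
      · rw [sum_comm]
        refine sum_le_sum fun z _ => le_of_eq ?_
        split_ifs with c
        · simp only [c, true_and]
          simp only [A, B, card_filter, sum_mul_sum, Fintype.sum_prod_type, ite_and,
            ite_mul, one_mul, zero_mul]
        · simp [c]
    have h5 := (Nat.mul_le_mul_left (4 * g) h4).trans (show _ ≤ N * ∑ y, ∑ z ∈ S, B y z by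
      simp only [mul_sum]
      refine sum_le_sum fun y _ => sum_le_sum fun z _ => ?_
      split_ifs with c
      · rw [← mul_assoc]; exact Nat.mul_le_mul_right _ c
      · simp)
    have h6 := Nat.mul_le_mul_left N h2
    exact Nat.le_of_mul_le_mul_left (by nlinarith) g0
  let big : Finset (Y × Z) := (univ ×ˢ S).filter fun p => N < 4 * g * A p.1 p.2 ∧ light p.2
  have h4 : big.card * N ≤ 4 * g * (g * N ^ 2) := by
    refine le_trans ?_ (Nat.mul_le_mul_left _ h1)
    rw [← sum_product', mul_sum, ← smul_eq_mul, ← sum_const]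
    exact (sum_le_sum fun p hp => (mem_filter.1 hp).2.1.le).trans
      (sum_le_sum_of_subset (filter_subset _ _))
  let c : Y × Z → ℕ := fun p => ∑ k, if out p.1 k = p.2 then 1 else 0
  have h5 : ∑ p ∈ big, c p ^ 2 ≤ coll out light := by
    refine le_trans (sum_le_sum_of_subset (t := (univ ×ˢ S).filter fun p => light p.2)
      (monotone_filter_right _ fun p _ hp => hp.2)) (le_of_eq ?_)
    rw [sum_filter, sum_product]
    refine sum_congr rfl fun y _ => ?_
    have : ∀ z, (if light z then c (y, z) ^ 2 else 0) =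
        ∑ k, ∑ k', if out y k = z then if out y k = out y k' ∧ light (out y k) then 1 else 0
          else 0 := fun z => by
      split_ifs with hz
      · simp only [c, sq, sum_mul_sum]
        refine sum_congr rfl fun k _ => sum_congr rfl fun k' _ => ?_
        by_cases h : out y k = z <;> simp [h, hz, eq_comm]
      · refine (sum_eq_zero fun k _ => sum_eq_zero fun k' _ => ?_).symm
        by_cases h : out y k = z <;> simp [h, hz]
    simp only [this]
    rw [sum_comm]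
    refine sum_congr rfl fun k _ => ?_
    rw [sum_comm]
    simp [hS]
  have h6 : Finset.card ((T ×ˢ univ) \ bad) * d ≤ ∑ p ∈ big, c p := by
    have e : ∑ p ∈ big, c p = ∑ q : Y × Y × Y, Finset.card (univ.filter fun w =>
        (q.1, out q.1 (q.2.1, q.2.2, w)) ∈ big) := by
      have : ∀ p, c p = ∑ q : Y × Y × Y × Ω, if (q.1, out q.1 q.2) = p then 1 else 0 := fun p => by
        simp [c, Fintype.sum_prod_type (α₁ := Y) (α₂ := Y × Y × Ω), Prod.ext_iff, ite_and]
      simp only [this]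
      rw [sum_comm]
      simp only [sum_ite_eq, card_filter, Fintype.sum_prod_type]
    rw [e, ← smul_eq_mul, ← sum_const]
    refine le_trans (sum_le_sum fun q hq => ?_) (sum_le_sum_of_subset (subset_univ _))
    obtain ⟨q1, q2⟩ := mem_sdiff.1 hq
    refine (h q.1 (mem_product.1 q1).1 q.2.1 q.2.2).trans (card_le_card fun w hw => ?_)
    obtain ⟨-, w1, w2, w3⟩ := mem_filter.1 hw
    exact mem_filter.2 ⟨mem_univ _, mem_filter.2 ⟨mem_product.2 ⟨mem_univ _, hS _ _⟩,
      not_le.1 fun c => q2 (mem_filter.2 ⟨mem_univ _, _, hS _ _, c, w1, w2⟩), w3⟩⟩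
  have h7 : N ^ 3 ≤ 4 * Finset.card ((T ×ˢ univ) \ bad) := by
    have h8 := le_card_sdiff bad (T ×ˢ univ)
    have h9 := Nat.mul_le_mul_right (N * N) hT
    rw [card_product, card_univ, Fintype.card_prod, ← hN] at h8
    have : N ^ 3 = N * (N * N) := by ring
    rw [mul_assoc] at h9
    omega
  have h8 := sq_sum_le_card_mul_sum_sq (s := big) (f := c)
  rcases Nat.eq_zero_or_pos N with h0 | h0
  · simp [h0]
  have h9 : big.card ≤ 4 * g ^ 2 * N := Nat.le_of_mul_le_mul_right (by nlinarith) h0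
  calc d ^ 2 * N ^ 6 = (N ^ 3 * d) ^ 2 := by ring
    _ ≤ (4 * ∑ p ∈ big, c p) ^ 2 := Nat.pow_le_pow_left (by nlinarith) 2
    _ ≤ 16 * (4 * g ^ 2 * N * coll out light) := by
      rw [mul_pow]
      exact Nat.mul_le_mul_left _ (h8.trans (Nat.mul_le_mul h9 h5))
    _ = _ := by ring

theorem heavy (F : Y × Y × Ω → Y → Y → Z) (M : ℕ) :
    ¬ Many (M + 1) fun z => Fintype.card Y ^ 4 * Fintype.card Ω < M * cnt F z := by
  rintro ⟨S, h1, h2⟩
  have h3 : ∑ z ∈ S, cnt F z ≤ Fintype.card Y ^ 4 * Fintype.card Ω := by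
    simp only [cnt, ← Fintype.sum_prod_type']
    rw [sum_comm]
    refine (sum_le_card_nsmul _ _ 1 fun k _ => ?_).trans (le_of_eq ?_)
    · rw [sum_ite_eq]; split_ifs <;> omega
    · simp only [card_univ, Fintype.card_prod, smul_eq_mul]; ring
  have h4 := card_nsmul_le_sum S (fun z => M * cnt F z) _ fun z hz => Nat.succ_le_of_lt (h2 z hz)
  rw [← mul_sum, smul_eq_mul] at h4
  have h5 := (Nat.mul_le_mul_right _ h1).trans (h4.trans (Nat.mul_le_mul_left M h3))
  rw [Nat.succ_eq_add_one, mul_add, add_mul] at h5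
  omega

end Pool.Agent.H.MP_eed1a0_lc
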