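import Pool.Agent.H.MP_eed1a0_lc.A

set_option autoImplicit false

/-! The shifts can be found by a computable search. -/

namespace Pool.Agent.H.MP_eed1a0_lc

open Finset Pool.Agent.Lib.helper21 Pool.Agent.Lib.helper21.KC Pool.Agent.Lib.helper21.CPred
open Pool.Agent.H.MP_d04dff_lc Classical Computable

variable {α : Type} [Primcodable α]

theorem csum {n : α → ℕ} {g : α → ℕ → ℕ} (hn : Computable n)
    (hg : Computable fun z : α × ℕ => g z.1 z.2) : Computable fun a => ∑ i ∈ range (n a), g a i := by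
  refine (Computable.nat_rec hn (const 0) (h := fun a z => z.2 + g a z.1)
    (Primrec.nat_add.to_comp.comp (snd.comp snd) (hg.comp (fst.pair (fst.comp snd)))).to₂).of_eq
    fun a => ?_
  induction n a with
  | zero => rfl
  | succ n ih => rw [sum_range_succ, ← ih]

def S3 (N K : ℕ) (g : ℕ × ℕ × ℕ → ℕ) : ℕ :=
  ∑ i ∈ range N, ∑ j ∈ range N, ∑ w ∈ range K, g (i, j, w)

theorem S3_eq (N K : ℕ) (g : ℕ × ℕ × ℕ → ℕ) :
    S3 N K g = ∑ k : Fin N × Fin N × Fin K, g (k.1, k.2.1, k.2.2) := by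
  simp only [S3, Fintype.sum_prod_type, sum_range]

theorem S3_comp {N K : α → ℕ} {g : α → ℕ × ℕ × ℕ → ℕ} (hN : Computable N) (hK : Computable K)
    (hg : Computable fun z : α × ℕ × ℕ × ℕ => g z.1 z.2) :
    Computable fun a => S3 (N a) (K a) (g a) := by
  have h1 : Computable fun z : ((α × ℕ) × ℕ) × ℕ => g z.1.1.1 (z.1.1.2, z.1.2, z.2) :=
    (hg.comp ((fst.comp (fst.comp fst)).pair ((snd.comp (fst.comp fst)).pair
      ((snd.comp fst).pair snd)))).of_eq fun _ => rfl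
  have h2 : Computable fun z : (α × ℕ) × ℕ => ∑ w ∈ range (K z.1.1), g z.1.1 (z.1.2, z.2, w) :=
    csum (hK.comp (fst.comp fst)) h1
  have h3 : Computable fun z : α × ℕ =>
      ∑ j ∈ range (N z.1), ∑ w ∈ range (K z.1), g z.1 (z.2, j, w) := csum (hN.comp fst) h2
  exact csum hN h3

theorem cle {f g : α → ℕ} (hf : Computable f) (hg : Computable g) :
    ComputablePred fun a => f a ≤ g a := (clt hg hf).not.of_eq fun _ => not_lt

theorem cmul {f g : α → ℕ} (hf : Computable f) (hg : Computable g) :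
    Computable fun a => f a * g a := Primrec.nat_mul.to_comp.comp hf hg

theorem cpow {f : α → ℕ} (hf : Computable f) (k : ℕ) : Computable fun a => f a ^ k :=
  (Primrec₂.unpaired'.1 Nat.Primrec.pow).to_comp.comp hf (const k)

variable (N K : ℕ → ℕ) (f : ℕ → ℕ × ℕ × ℕ → ℕ → ℕ → Str)

noncomputable def cntN (h : ℕ) (z : Str) : ℕ :=
  S3 (N h) (K h) fun k => ∑ u ∈ range (N h), ∑ w ∈ range (N h), if f h k u w = z then 1 else 0

def outN (h : ℕ) (l : List ℕ × List ℕ) (y : ℕ) (k : ℕ × ℕ × ℕ) : Str :=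
  f h k ((y + l.1.getD k.1 0) % N h) ((y + l.2.getD k.2.1 0) % N h)

noncomputable def collN (h : ℕ) (l : List ℕ × List ℕ) : ℕ :=
  ∑ y ∈ range (N h), S3 (N h) (K h) fun k => S3 (N h) (K h) fun k' =>
    if outN N f h l y k = outN N f h l y k' ∧
      2 ^ h * cntN N K f h (outN N f h l y k) ≤ N h ^ 4 * K h then 1 else 0

variable {N K f} (hN : Computable N) (hK : Computable K)
  (hf : Computable fun z : (ℕ × ℕ × ℕ × ℕ) × ℕ × ℕ => f z.1.1 z.1.2 z.2.1 z.2.2)
include hN hK hf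

theorem cntN_comp : Computable fun z : ℕ × Str => cntN N K f z.1 z.2 := by
  have h0 : Computable fun z : (((ℕ × Str) × ℕ × ℕ × ℕ) × ℕ) × ℕ =>
      f z.1.1.1.1 z.1.1.2 z.1.2 z.2 :=
    (hf.comp (((fst.comp (fst.comp (fst.comp fst))).pair (snd.comp (fst.comp fst))).pair
      ((snd.comp fst).pair snd))).of_eq fun _ => rfl
  have h1 : Computable fun z : (((ℕ × Str) × ℕ × ℕ × ℕ) × ℕ) × ℕ =>
      if f z.1.1.1.1 z.1.1.2 z.1.2 z.2 = z.1.1.1.2 then 1 else 0 :=
    cite (ceq h0 (snd.comp (fst.comp (fst.comp fst)))) (const 1) (const 0)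
  have h2 : Computable fun z : ((ℕ × Str) × ℕ × ℕ × ℕ) × ℕ =>
      ∑ w ∈ range (N z.1.1.1), if f z.1.1.1 z.1.2 z.2 w = z.1.1.2 then 1 else 0 :=
    csum (hN.comp (fst.comp (fst.comp fst))) h1
  have h3 : Computable fun z : (ℕ × Str) × ℕ × ℕ × ℕ => ∑ u ∈ range (N z.1.1),
      ∑ w ∈ range (N z.1.1), if f z.1.1 z.2 u w = z.1.2 then 1 else 0 :=
    csum (hN.comp (fst.comp fst)) h2
  exact S3_comp (hN.comp fst) (hK.comp fst) h3

omit hK in
theorem outN_comp {h : α → ℕ} {l : α → List ℕ × List ℕ} {y : α → ℕ} {k : α → ℕ × ℕ × ℕ}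
    (h1 : Computable h) (h2 : Computable l) (h3 : Computable y) (h4 : Computable k) :
    Computable fun a => outN N f (h a) (l a) (y a) (k a) := by
  have e : ∀ {L : α → List ℕ} {i : α → ℕ}, Computable L → Computable i →
      Computable fun a => (y a + (L a).getD (i a) 0) % N (h a) := fun hL hi =>
    Primrec.nat_mod.to_comp.comp (Primrec.nat_add.to_comp.comp h3
      ((Primrec.list_getD 0).to_comp.comp hL hi)) (hN.comp h1)
  exact hf.comp ((h1.pair h4).pair ((e (fst.comp h2) (fst.comp h4)).pair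
    (e (snd.comp h2) (fst.comp (snd.comp h4)))))

theorem collN_comp : Computable fun z : ℕ × List ℕ × List ℕ => collN N K f z.1 z.2 := by
  have g0 : Computable fun z : (((ℕ × List ℕ × List ℕ) × ℕ) × ℕ × ℕ × ℕ) × ℕ × ℕ × ℕ =>
      z.1.1.1.1 := fst.comp (fst.comp (fst.comp fst))
  have g1 := outN_comp hN hf g0 (snd.comp (fst.comp (fst.comp fst))) (snd.comp (fst.comp fst))
    (snd.comp fst)
  have g2 := outN_comp hN hf g0 (snd.comp (fst.comp (fst.comp fst))) (snd.comp (fst.comp fst)) snd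
  have g3 := (cntN_comp hN hK hf).comp (g0.pair g1)
  have h1 : Computable fun z : (((ℕ × List ℕ × List ℕ) × ℕ) × ℕ × ℕ × ℕ) × ℕ × ℕ × ℕ =>
      if outN N f z.1.1.1.1 z.1.1.1.2 z.1.1.2 z.1.2 = outN N f z.1.1.1.1 z.1.1.1.2 z.1.1.2 z.2 ∧
        2 ^ z.1.1.1.1 * cntN N K f z.1.1.1.1 (outN N f z.1.1.1.1 z.1.1.1.2 z.1.1.2 z.1.2) ≤
          N z.1.1.1.1 ^ 4 * K z.1.1.1.1 then 1 else 0 :=
    cite (cand (ceq g1 g2) (cle (cmul (pow2.to_comp.comp g0) g3)
      (cmul (cpow (hN.comp g0) 4) (hK.comp g0)))) (const 1) (const 0)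
  have g4 : Computable fun z : ((ℕ × List ℕ × List ℕ) × ℕ) × ℕ × ℕ × ℕ => z.1.1.1 :=
    fst.comp (fst.comp fst)
  have h2 := S3_comp (g := fun (z : ((ℕ × List ℕ × List ℕ) × ℕ) × ℕ × ℕ × ℕ) k' =>
      if outN N f z.1.1.1 z.1.1.2 z.1.2 z.2 = outN N f z.1.1.1 z.1.1.2 z.1.2 k' ∧
        2 ^ z.1.1.1 * cntN N K f z.1.1.1 (outN N f z.1.1.1 z.1.1.2 z.1.2 z.2) ≤
          N z.1.1.1 ^ 4 * K z.1.1.1 then 1 else 0) (hN.comp g4) (hK.comp g4) h1
  have h3 := S3_comp (g := fun (z : (ℕ × List ℕ × List ℕ) × ℕ) k => S3 (N z.1.1) (K z.1.1) fun k' =>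
      if outN N f z.1.1 z.1.2 z.2 k = outN N f z.1.1 z.1.2 z.2 k' ∧
        2 ^ z.1.1 * cntN N K f z.1.1 (outN N f z.1.1 z.1.2 z.2 k) ≤
          N z.1.1 ^ 4 * K z.1.1 then 1 else 0) (hN.comp (fst.comp fst)) (hK.comp (fst.comp fst)) h2
  exact csum (hN.comp fst) h3

omit hN hK hf

theorem cntN_eq (h : ℕ) (z : Str) : cntN N K f h z =
    cnt (fun (k : Fin (N h) × Fin (N h) × Fin (K h)) (u w : Fin (N h)) =>
      f h (k.1, k.2.1, k.2.2) u w) z := by
  simp only [cntN, cnt, S3_eq, sum_range]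
  refine sum_congr rfl fun k _ => sum_congr rfl fun u _ => sum_congr rfl fun w _ => ?_
  split_ifs <;> rfl

theorem collN_eq (h : ℕ) (l : List ℕ × List ℕ) : collN N K f h l =
    coll (fun (y : Fin (N h)) (k : Fin (N h) × Fin (N h) × Fin (K h)) =>
      outN N f h l y (k.1, k.2.1, k.2.2)) fun z => 2 ^ h * cntN N K f h z ≤ N h ^ 4 * K h := by
  simp only [collN, coll, S3_eq, sum_range]
  refine sum_congr rfl fun k _ => sum_congr rfl fun u _ => sum_congr rfl fun w _ => ?_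
  split_ifs <;> rfl

include hN hK hf in
theorem found (h0 : ∀ h, 0 < N h) : ∃ l : ℕ → List ℕ × List ℕ, Computable l ∧ ∀ h,
    2 ^ h * collN N K f h (l h) ≤ N h ^ 4 * K h ^ 2 * (2 * 2 ^ h + N h) := by
  have g1 : Computable fun z : ℕ × List ℕ × List ℕ => 2 ^ z.1 * collN N K f z.1 z.2 :=
    cmul (pow2.to_comp.comp fst) (collN_comp hN hK hf)
  have g2 : Computable fun h : ℕ => N h ^ 4 * K h ^ 2 * (2 * 2 ^ h + N h) :=
    cmul (cmul (cpow hN 4) (cpow hK 2)) (Primrec.nat_add.to_comp.comp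
      (cmul (const 2) pow2.to_comp) hN)
  obtain ⟨b, h1, h2⟩ := ComputablePred.computable_iff.1 (cle g1 (g2.comp fst))
  refine Sig.choice (R := fun h l => 2 ^ h * collN N K f h l ≤
    N h ^ 4 * K h ^ 2 * (2 * 2 ^ h + N h)) ((Sig.graph h1 Primrec.id (Primrec.const true)).of_eq fun z =>
    eq_comm.trans (Eq.to_iff (congrFun h2 z)).symm) fun h => ?_
  have : NeZero (N h) := ⟨(h0 h).ne'⟩
  obtain ⟨s, t, hs⟩ := shifts (fun (k : Fin (N h) × Fin (N h) × Fin (K h)) (u w : Fin (N h)) =>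
      f h (k.1, k.2.1, k.2.2) u w) (2 ^ h)
  refine ⟨(List.ofFn fun i => (s i).1, List.ofFn fun i => (t i).1), ?_⟩
  simp only [Fintype.card_fin, ← cntN_eq] at hs
  rw [collN_eq]
  simpa [outN, Fin.val_add] using hs

def bin (k v : ℕ) : Str := (List.range k).map (Fn.tb v)

theorem bin_prim : Primrec₂ bin :=
  (Primrec.list_map (Primrec.list_range.comp .fst)
    (Fn.tb_prim.comp (Primrec.snd.comp .fst) .snd).to₂).to₂

theorem bin_len (k v : ℕ) : (bin k v).length = k := by simp [bin]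

theorem bin_inj {k v v' : ℕ} (h : v < 2 ^ k) (h' : v' < 2 ^ k) (e : bin k v = bin k v') : v = v' := by
  rw [← Fn.cd_tb h, ← Fn.cd_tb h']
  exact Fn.cd_congr fun i hi => List.map_inj_left.1 e i (List.mem_range.2 hi)

theorem bin_surj {k : ℕ} (r : Fin k → Bool) : ∃ v < 2 ^ k, bin k v = List.ofFn r :=
  ⟨Fn.cd (fun i => (List.ofFn r).getD i false) k, Fn.cd_lt _ _, List.ext_getElem (by simp [bin])
    fun i h1 h2 => by
      rw [List.getElem_ofFn]
      simp only [bin, List.getElem_map, List.getElem_range]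
      rw [Fn.tb_cd _ _ _ (by simpa using h2), List.getD_eq_getElem _ _ h2, List.getElem_ofFn]⟩

def digs (b : ℕ) : ℕ → ℕ → List ℕ
  | 0, _ => []
  | k + 1, q => q % b :: digs b k (q / b)

theorem digs_prim : ∀ k, Primrec₂ fun b q => digs b k q
  | 0 => Primrec.const []
  | k + 1 => (Primrec.list_cons.comp (Primrec.nat_mod.comp .snd .fst)
      ((digs_prim k).comp .fst (Primrec.nat_div.comp .snd .fst))).to₂

theorem digs_surj (b : ℕ) : ∀ v : List ℕ, (∀ x ∈ v, x < b) →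
    ∃ q < b ^ v.length, digs b v.length q = v
  | [], _ => ⟨0, by simp, rfl⟩
  | x :: v, h => by
    obtain ⟨q, h1, h2⟩ := digs_surj b v fun y hy => h y (List.mem_cons_of_mem _ hy)
    have h3 := h x List.mem_cons_self
    refine ⟨x + b * q, by rw [List.length_cons, pow_succ]; nlinarith, ?_⟩
    rw [List.length_cons, digs, Nat.add_mul_mod_self_left, Nat.mod_eq_of_lt h3,
      Nat.add_mul_div_left _ _ (by omega), Nat.div_eq_of_lt h3, zero_add, h2]

end Pool.Agent.H.MP_eed1a0_lc
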